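import Pool.Agent.Helper1.KU.Mach

/-!
# Locality of Kolmogorov-Uspenskii machines (piece A for MP_538d4f_lc)
-/

namespace Pool.Agent.Helper17.KU

open Pool.Agent.Helper1.KU Finset

variable {D : ℕ}

/-! ## Balls and paths -/

theorem card_ball_le (E : Edges D) (n u : ℕ) : (ball E n u).card ≤ (D + 1) ^ n := by
  induction n generalizing u with
  | zero => simp [ball]
  | succ n ih =>
    unfold ball
    refine (card_insert_le _ _).trans ?_
    refine (Nat.add_le_add_right (card_biUnion_le_card_mul _ _ ((D + 1) ^ n) ?_) 1).trans ?_
    · intro a _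
      cases h : E u a with
      | none => simp
      | some p => exact ih p.1
    rw [card_univ, Fintype.card_fin]
    have h2 : 1 ≤ (D + 1) ^ n := Nat.one_le_pow _ _ (by omega)
    calc D * (D + 1) ^ n + 1 ≤ D * (D + 1) ^ n + (D + 1) ^ n := by omega
      _ = (D + 1) ^ (n + 1) := by ring

theorem endOf_append (E : Edges D) (u : ℕ) (w w' : List (Fin D)) :
    endOf E u (w ++ w') = (endOf E u w).bind fun v => endOf E v w' := by
  induction w generalizing u with
  | nil => rfl
  | cons a w ih =>
    simp only [List.cons_append, endOf]
    cases h : E u a with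
    | none => rfl
    | some p => exact ih p.1

theorem mem_ball_iff (E : Edges D) (n u v : ℕ) :
    v ∈ ball E n u ↔ ∃ w : List (Fin D), w.length ≤ n ∧ endOf E u w = some v := by
  induction n generalizing u with
  | zero =>
    simp only [ball, mem_singleton]
    constructor
    · rintro rfl
      exact ⟨[], le_rfl, rfl⟩
    · rintro ⟨w, hw, h⟩
      have : w = [] := List.length_eq_zero_iff.1 (Nat.le_zero.1 hw)
      subst this
      simp only [endOf, Option.some.injEq] at h
      exact h.symm
  | succ n ih =>
    unfold ball
    rw [mem_insert, mem_biUnion]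
    constructor
    · rintro (rfl | ⟨a, _, ha⟩)
      · exact ⟨[], by simp, rfl⟩
      · cases h : E u a with
        | none => rw [h] at ha; simp at ha
        | some p =>
          rw [h] at ha
          obtain ⟨w, hw, hw'⟩ := (ih p.1).1 ha
          refine ⟨a :: w, by simpa using hw, ?_⟩
          simp only [endOf, h]
          exact hw'
    · rintro ⟨w, hw, h⟩
      cases w with
      | nil =>
        simp only [endOf, Option.some.injEq] at h
        exact Or.inl h.symm
      | cons a w =>
        right
        refine ⟨a, mem_univ a, ?_⟩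
        simp only [endOf] at h
        cases h' : E u a with
        | none => rw [h'] at h; simp at h
        | some p =>
          rw [h'] at h
          exact (ih p.1).2 ⟨w, by simpa using hw, h⟩

theorem ball_mono (E : Edges D) {n m : ℕ} (h : n ≤ m) (u : ℕ) : ball E n u ⊆ ball E m u := by
  intro v hv
  rw [mem_ball_iff] at hv ⊢
  obtain ⟨w, hw, hw'⟩ := hv
  exact ⟨w, hw.trans h, hw'⟩

theorem mem_ball_self (E : Edges D) (n u : ℕ) : u ∈ ball E n u := by
  rw [mem_ball_iff]
  exact ⟨[], by simp, rfl⟩

theorem ball_trans (E : Edges D) {n m u v w : ℕ} (h1 : v ∈ ball E n u) (h2 : w ∈ ball E m v) :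
    w ∈ ball E (n + m) u := by
  rw [mem_ball_iff] at *
  obtain ⟨p, hp, hp'⟩ := h1
  obtain ⟨q, hq, hq'⟩ := h2
  refine ⟨p ++ q, by rw [List.length_append]; omega, ?_⟩
  rw [endOf_append, hp']
  exact hq'

theorem endOf_reverse {E : Edges D} (hsymm : ∀ u a v b, E u a = some (v, b) → E v b = some (u, a))
    (w : List (Fin D)) (u v : ℕ) (h : endOf E u w = some v) :
    ∃ w' : List (Fin D), w'.length = w.length ∧ endOf E v w' = some u := by
  induction w generalizing u with
  | nil =>
    simp only [endOf, Option.some.injEq] at h
    exact ⟨[], rfl, by simp [endOf, h]⟩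
  | cons a w ih =>
    simp only [endOf] at h
    cases h' : E u a with
    | none => rw [h'] at h; simp at h
    | some p =>
      rw [h'] at h
      obtain ⟨w', hw', hw''⟩ := ih p.1 h
      refine ⟨w' ++ [p.2], by simp [hw'], ?_⟩
      rw [endOf_append, hw'']
      simp only [Option.bind_some, endOf]
      rw [hsymm u a p.1 p.2 h']

theorem mem_ball_comm {E : Edges D} (hsymm : ∀ u a v b, E u a = some (v, b) → E v b = some (u, a))
    {n u v : ℕ} : v ∈ ball E n u ↔ u ∈ ball E n v := by
  rw [mem_ball_iff, mem_ball_iff]
  constructor
  · rintro ⟨w, hw, h⟩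
    obtain ⟨w', hw', h'⟩ := endOf_reverse hsymm w u v h
    exact ⟨w', hw' ▸ hw, h'⟩
  · rintro ⟨w, hw, h⟩
    obtain ⟨w', hw', h'⟩ := endOf_reverse hsymm w v u h
    exact ⟨w', hw' ▸ hw, h'⟩

/-- Paths only read the rows in the ball. -/
theorem endOf_congr {E E' : Edges D} {n u : ℕ} (h : ∀ v ∈ ball E n u, E' v = E v)
    (w : List (Fin D)) (hw : w.length ≤ n) : endOf E' u w = endOf E u w := by
  induction w generalizing n u with
  | nil => rfl
  | cons a w ih =>
    cases n with
    | zero => simp at hw
    | succ n =>
      simp only [endOf]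
      rw [h u (mem_ball_self _ _ _)]
      cases h' : E u a with
      | none => rfl
      | some p =>
        refine ih (n := n) ?_ (by simpa using hw)
        intro v hv
        apply h
        rw [mem_ball_iff] at hv ⊢
        obtain ⟨q, hq, hq'⟩ := hv
        refine ⟨a :: q, by simpa using hq, ?_⟩
        simp only [endOf, h']
        exact hq'

theorem ball_congr {E E' : Edges D} {n u : ℕ} (h : ∀ v ∈ ball E n u, E' v = E v) :
    ball E' n u = ball E n u := by
  ext v
  rw [mem_ball_iff, mem_ball_iff]
  constructor
  · rintro ⟨w, hw, hw'⟩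
    exact ⟨w, hw, by rw [← endOf_congr h w hw]; exact hw'⟩
  · rintro ⟨w, hw, hw'⟩
    exact ⟨w, hw, by rw [endOf_congr h w hw]; exact hw'⟩

/-! ## Words -/

theorem wordRun_append (K : KUM) (F : ℕ) (w w' : List Cmd) (c : Mic K.D K.n) :
    wordRun K F (w ++ w') c = wordRun K F w' (wordRun K F w c) := by
  induction w generalizing c with
  | nil => rfl
  | cons g w ih => exact ih _

theorem wordVis_append (K : KUM) (F : ℕ) (w w' : List Cmd) (c : Mic K.D K.n) :
    wordVis K F (w ++ w') c = wordVis K F w c ∪ wordVis K F w' (wordRun K F w c) := by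
  induction w generalizing c with
  | nil => simp [wordVis, wordRun]
  | cons g w ih =>
    simp only [List.cons_append, wordVis, wordRun]
    rw [ih, union_assoc]

/-! ## Sizes -/

theorem size_micStep (K : KUM) (b : ℕ → Bool) (c : Mic K.D K.n) : c.size ≤ (micStep K b c).size ∧
    (micStep K b c).size ≤ c.size + (K.act c.state (view K.r c.edges c.head)).created := by
  unfold micStep
  split_ifs
  · exact ⟨le_rfl, Nat.le_add_right _ _⟩
  · cases h : K.act c.state (view K.r c.edges c.head) with
    | rewrite k ops head next => exact ⟨Nat.le_add_right _ _, le_rfl⟩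
    | read next => exact ⟨le_rfl, le_rfl⟩
    | write o next => exact ⟨le_rfl, le_rfl⟩

theorem size_le_iterate (K : KUM) (b : ℕ → Bool) (F : ℕ) (c : Mic K.D K.n) :
    c.size ≤ ((micStep K b)^[F] c).size := by
  induction F generalizing c with
  | zero => exact le_rfl
  | succ F ih =>
    rw [Function.iterate_succ_apply]
    exact (size_micStep K b c).1.trans (ih _)

theorem size_le_cmdRun (K : KUM) (F : ℕ) (g : Cmd) (c : Mic K.D K.n) :
    c.size ≤ (cmdRun K F g c).size :=
  size_le_iterate K g.bits F c.reset

theorem size_le_wordRun (K : KUM) (F : ℕ) (w : List Cmd) (c : Mic K.D K.n) :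
    c.size ≤ (wordRun K F w c).size := by
  induction w generalizing c with
  | nil => exact le_rfl
  | cons g w ih => exact (size_le_cmdRun K F g c).trans (ih _)

theorem exists_created_le (K : KUM) : ∃ m : ℕ, ∀ s v, (K.act s v).created ≤ m := by
  have : Finite (Word K.D K.r) := (List.finite_length_le (Fin K.D) K.r).to_subtype
  have hfin : (Set.range fun p : Fin K.n × (Word K.D K.r → Word K.D K.r → Bool) =>
      (K.act p.1 p.2).created).Finite := Set.finite_range _
  obtain ⟨m, hm⟩ := hfin.bddAbove
  exact ⟨m, fun s v => hm ⟨(s, v), rfl⟩⟩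

/-- At most `c₁` vertices are visited per command. -/
theorem exists_card_wordVis_le (K : KUM) (F : ℕ) : ∃ c₁ : ℕ, ∀ (w : List Cmd) (c : Mic K.D K.n),
    (wordVis K F w c).card ≤ c₁ * w.length ∧
      (wordRun K F w c).size ≤ c.size + c₁ * w.length := by
  obtain ⟨m, hm⟩ := exists_created_le K
  have h1 : ∀ c : Mic K.D K.n, (micVis K c).card ≤ (K.D + 1) ^ (K.r + 1) + m := by
    intro c
    unfold micVis
    split_ifs
    · simp
    · refine (card_union_le _ _).trans (Nat.add_le_add (card_ball_le _ _ _) ?_)
      rw [Nat.card_Ico]
      have := hm c.state (view K.r c.edges c.head)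
      omega
  have h2 : ∀ (b : ℕ → Bool) (i : ℕ) (c : Mic K.D K.n),
      ((micStep K b)^[i] c).size ≤ c.size + i * m := by
    intro b i
    induction i with
    | zero => intro c; simp
    | succ i ih =>
      intro c
      rw [Function.iterate_succ_apply]
      have h3 := ih (micStep K b c)
      have h4 := (size_micStep K b c).2
      have h5 := hm c.state (view K.r c.edges c.head)
      rw [Nat.succ_mul]
      omega
  refine ⟨F * ((K.D + 1) ^ (K.r + 1) + m), fun w => ?_⟩
  induction w with
  | nil => intro c; simp [wordVis, wordRun]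
  | cons g w ih =>
    intro c
    obtain ⟨ih1, ih2⟩ := ih (cmdRun K F g c)
    have h3 : (cmdVis K F g c).card ≤ F * ((K.D + 1) ^ (K.r + 1) + m) := by
      unfold cmdVis
      refine (card_biUnion_le_card_mul _ _ _ fun i _ => h1 _).trans ?_
      rw [card_range]
    have h4 : (cmdRun K F g c).size ≤ c.size + F * m := h2 g.bits F c.reset
    have h5 : F * m ≤ F * ((K.D + 1) ^ (K.r + 1) + m) := Nat.mul_le_mul_left _ (by omega)
    simp only [wordVis, wordRun, List.length_cons, Nat.mul_succ]
    refine ⟨(card_union_le _ _).trans (by omega), by omega⟩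

/-! ## Elementary changes -/

theorem setPlace_of_ne (E : Edges D) {u v : ℕ} (h : v ≠ u) (a : Fin D) (e : Option (ℕ × Fin D)) :
    setPlace E u a e v = E v := by
  simp [setPlace, h]

theorem setPlace_congr {E E' : Edges D} {v : ℕ} (h : E v = E' v) (u : ℕ) (a : Fin D)
    (e : Option (ℕ × Fin D)) : setPlace E u a e v = setPlace E' u a e v := by
  by_cases hv : v = u
  · subst hv
    simp [setPlace, h]
  · rw [setPlace_of_ne E hv, setPlace_of_ne E' hv, h]

theorem setPlace_apply (E : Edges D) (u : ℕ) (a : Fin D) (e : Option (ℕ × Fin D)) (v : ℕ)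
    (b : Fin D) : setPlace E u a e v b = if v = u ∧ b = a then e else E v b := by
  unfold setPlace
  by_cases hv : v = u
  · subst hv
    rw [Function.update_self]
    by_cases hb : b = a
    · subst hb
      simp
    · rw [Function.update_of_ne hb]
      simp [hb]
  · rw [Function.update_of_ne hv]
    simp [hv]

theorem apply_join {r : ℕ} (val : Ref D r → Option ℕ) (E : Edges D) (u v : Ref D r) (a b : Fin D) :
    (Op.apply val E (.join u a v b) = E) ∨ ∃ p q, val u = some p ∧ val v = some q ∧
      E p a = none ∧ E q b = none ∧
      Op.apply val E (.join u a v b) = setPlace (setPlace E p a (some (q, b))) q b (some (p, a)) := by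
  cases hu : val u with
  | none => left; simp only [Op.apply, hu]
  | some p =>
    cases hv : val v with
    | none => left; simp only [Op.apply, hu, hv]
    | some q =>
      by_cases h : E p a = none ∧ E q b = none
      · right
        refine ⟨p, q, rfl, rfl, h.1, h.2, ?_⟩
        simp only [Op.apply, hu, hv, if_pos h]
      · left
        simp only [Op.apply, hu, hv, if_neg h]

theorem apply_cut {r : ℕ} (val : Ref D r → Option ℕ) (E : Edges D) (u : Ref D r) (a : Fin D) :
    (Op.apply val E (.cut u a) = E) ∨ ∃ p q b, val u = some p ∧ E p a = some (q, b) ∧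
      Op.apply val E (.cut u a) = setPlace (setPlace E p a none) q b none := by
  cases hu : val u with
  | none => left; simp only [Op.apply, hu]
  | some p =>
    cases h : E p a with
    | none => left; simp only [Op.apply, hu, h]
    | some y =>
      right
      exact ⟨p, y.1, y.2, rfl, h, by simp only [Op.apply, hu, h]⟩

/-- Two storages that agree on `A` agree on `A` after an elementary change whose names stand for
vertices in `A`. -/
theorem apply_congr {r : ℕ} {val : Ref D r → Option ℕ} {A : Finset ℕ}
    (hval : ∀ u p, val u = some p → p ∈ A) {E E' : Edges D} (h : ∀ u ∈ A, E' u = E u)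
    (op : Op D r) : ∀ u ∈ A, Op.apply val E' op u = Op.apply val E op u := by
  intro x hx
  cases op with
  | join u a v b =>
    cases hu : val u with
    | none => simp only [Op.apply, hu]; exact h x hx
    | some p =>
      cases hv : val v with
      | none => simp only [Op.apply, hu, hv]; exact h x hx
      | some q =>
        simp only [Op.apply, hu, hv]
        rw [h p (hval u p hu), h q (hval v q hv)]
        split_ifs
        · exact setPlace_congr (setPlace_congr (h x hx) _ _ _) _ _ _
        · exact h x hx
  | cut u a =>
    cases hu : val u with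
    | none => simp only [Op.apply, hu]; exact h x hx
    | some p =>
      have h1 := h p (hval u p hu)
      cases hE : E p a with
      | none => simp only [Op.apply, hu, h1, hE]; exact h x hx
      | some y =>
        simp only [Op.apply, hu, h1, hE]
        exact setPlace_congr (setPlace_congr (h x hx) _ _ _) _ _ _

/-- Nothing is changed outside `A`, if `A` contains the named vertices (the set `B`) and their
current neighbours. -/
theorem apply_outside {r : ℕ} {val : Ref D r → Option ℕ} {A B : Finset ℕ} (hBA : B ⊆ A)
    (hval : ∀ u p, val u = some p → p ∈ B) {E : Edges D}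
    (hE : ∀ p ∈ B, ∀ a q b, E p a = some (q, b) → q ∈ A) (op : Op D r) :
    (∀ u ∉ A, Op.apply val E op u = E u) ∧
      ∀ p ∈ B, ∀ a q b, Op.apply val E op p a = some (q, b) → q ∈ A := by
  cases op with
  | join u a v b =>
    rcases apply_join val E u v a b with h | ⟨p, q, hu, hv, _, _, h⟩
    · rw [h]
      exact ⟨fun _ _ => rfl, hE⟩
    · rw [h]
      have hp := hval u p hu
      have hq := hval v q hv
      refine ⟨fun x hx => ?_, fun x hx a' y b' h => ?_⟩
      · rw [setPlace_of_ne _ (fun h => hx (by rw [h]; exact hBA hq)),
          setPlace_of_ne _ (fun h => hx (by rw [h]; exact hBA hp))]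
      · rw [setPlace_apply, setPlace_apply] at h
        split_ifs at h
        · simp only [Option.some.injEq, Prod.mk.injEq] at h
          rw [← h.1]
          exact hBA hp
        · simp only [Option.some.injEq, Prod.mk.injEq] at h
          rw [← h.1]
          exact hBA hq
        · exact hE x hx a' y b' h
  | cut u a =>
    rcases apply_cut val E u a with h | ⟨p, q, b, hu, h', h⟩
    · rw [h]
      exact ⟨fun _ _ => rfl, hE⟩
    · rw [h]
      have hp := hval u p hu
      refine ⟨fun x hx => ?_, fun x hx a' y b' h => ?_⟩
      · rw [setPlace_of_ne _ (fun h => hx (by rw [h]; exact hE p hp a q b h')),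
          setPlace_of_ne _ (fun h => hx (by rw [h]; exact hBA hp))]
      · rw [setPlace_apply, setPlace_apply] at h
        split_ifs at h
        exact hE x hx a' y b' h

theorem foldl_congr {r : ℕ} {val : Ref D r → Option ℕ} {A : Finset ℕ}
    (hval : ∀ u p, val u = some p → p ∈ A) (ops : List (Op D r)) {E E' : Edges D}
    (h : ∀ u ∈ A, E' u = E u) :
    ∀ u ∈ A, ops.foldl (Op.apply val) E' u = ops.foldl (Op.apply val) E u := by
  induction ops generalizing E E' with
  | nil => exact h
  | cons op ops ih => exact ih (apply_congr hval h op)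

theorem foldl_outside {r : ℕ} {val : Ref D r → Option ℕ} {A B : Finset ℕ} (hBA : B ⊆ A)
    (hval : ∀ u p, val u = some p → p ∈ B) (ops : List (Op D r)) {E : Edges D}
    (hE : ∀ p ∈ B, ∀ a q b, E p a = some (q, b) → q ∈ A) :
    ∀ u ∉ A, ops.foldl (Op.apply val) E u = E u := by
  induction ops generalizing E with
  | nil => exact fun _ _ => rfl
  | cons op ops ih =>
    intro u hu
    obtain ⟨h1, h2⟩ := apply_outside hBA hval hE op
    rw [List.foldl_cons, ih h2 u hu, h1 u hu]

theorem val_mem {r : ℕ} (E : Edges D) (h s k : ℕ) (u : Ref D r) (p : ℕ)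
    (hu : Ref.val E h s k u = some p) : p ∈ ball E r h ∪ Ico s (s + k) := by
  cases u with
  | old w =>
    rw [mem_union]
    left
    rw [mem_ball_iff]
    exact ⟨w.1, w.2, hu⟩
  | new i =>
    simp only [Ref.val] at hu
    split_ifs at hu with hi
    simp only [Option.some.injEq] at hu
    rw [mem_union, mem_Ico]
    right
    omega

/-- The row of a vertex outside of the touched set does not change. -/
theorem micStep_outside (K : KUM) (b : ℕ → Bool) (c : Mic K.D K.n) {u : ℕ}
    (hu : u ∉ micVis K c) : (micStep K b c).edges u = c.edges u := by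
  unfold micVis at hu
  unfold micStep
  split_ifs with hb
  · rfl
  · rw [if_neg hb] at hu
    cases h : K.act c.state (view K.r c.edges c.head) with
    | rewrite k ops head next =>
      rw [h] at hu
      simp only [KAct.created] at hu
      simp only
      have hBA : ball c.edges K.r c.head ∪ Ico c.size (c.size + k) ⊆
          ball c.edges (K.r + 1) c.head ∪ Ico c.size (c.size + k) :=
        union_subset_union (ball_mono _ (Nat.le_succ _) _) (Subset.refl _)
      rw [foldl_outside hBA (val_mem c.edges c.head c.size k) ops ?_ u hu]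
      · unfold addVertices
        rw [if_neg]
        intro h'
        apply hu
        rw [mem_union, mem_Ico]
        exact Or.inr h'
      · intro p hp a q b' hq
        unfold addVertices at hq
        split_ifs at hq with h1
        rw [mem_union, mem_Ico] at hp
        rcases hp with hp | hp
        · rw [mem_union]
          left
          rw [mem_ball_iff] at hp ⊢
          obtain ⟨w, hw, hw'⟩ := hp
          refine ⟨w ++ [a], by rw [List.length_append]; simpa using hw, ?_⟩
          rw [endOf_append, hw']
          simp only [Option.bind_some, endOf, hq]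
        · exact absurd hp h1
    | read next => rfl
    | write o next => rfl

/-- The configurations agree except for the storage outside of `A`. -/
structure Sim {n : ℕ} (A : Finset ℕ) (c c' : Mic D n) : Prop where
  state : c'.state = c.state
  head : c'.head = c.head
  size : c'.size = c.size
  pos : c'.pos = c.pos
  bit : c'.bit = c.bit
  edges : ∀ u ∈ A, c'.edges u = c.edges u

theorem Sim.view_eq {K : KUM} {A : Finset ℕ} {c c' : Mic K.D K.n} (h : Sim A c c')
    (hA : micVis K c ⊆ A) (hb : ¬ c.bit.isSome) : view K.r c'.edges c'.head =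
      view K.r c.edges c.head ∧
      (∀ w : List (Fin K.D), w.length ≤ K.r → endOf c'.edges c'.head w = endOf c.edges c.head w) ∧
      ball c'.edges (K.r + 1) c'.head = ball c.edges (K.r + 1) c.head := by
  unfold micVis at hA
  rw [if_neg hb] at hA
  have h1 : ∀ v ∈ ball c.edges (K.r + 1) c.head, c'.edges v = c.edges v := fun v hv =>
    h.edges v (hA (mem_union_left _ hv))
  have h2 : ∀ w : List (Fin K.D), w.length ≤ K.r + 1 →
      endOf c'.edges c'.head w = endOf c.edges c.head w := by
    intro w hw
    rw [h.head]
    exact endOf_congr h1 w hw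
  refine ⟨?_, fun w hw => h2 w (by omega), ?_⟩
  · funext w v
    unfold view
    rw [h2 w.1 (by have := w.2; omega), h2 v.1 (by have := v.2; omega)]
  · rw [h.head]
    exact ball_congr h1

theorem Sim.micVis_eq {K : KUM} {A : Finset ℕ} {c c' : Mic K.D K.n} (h : Sim A c c')
    (hA : micVis K c ⊆ A) : micVis K c' = micVis K c := by
  by_cases hb : c.bit.isSome
  · unfold micVis
    rw [if_pos hb, if_pos (by rw [h.bit]; exact hb)]
  · obtain ⟨h1, _, h3⟩ := h.view_eq hA hb
    unfold micVis
    rw [if_neg hb, if_neg (by rw [h.bit]; exact hb), h1, h3, h.size, h.state]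

theorem Sim.micStep {K : KUM} {A : Finset ℕ} {c c' : Mic K.D K.n} (h : Sim A c c')
    (hA : micVis K c ⊆ A) (b : ℕ → Bool) : Sim A (micStep K b c) (micStep K b c') := by
  by_cases hb : c.bit.isSome
  · unfold Pool.Agent.Helper1.KU.micStep
    rw [if_pos hb, if_pos (by rw [h.bit]; exact hb)]
    exact h
  · obtain ⟨h1, h2, _⟩ := h.view_eq hA hb
    have hout : ∀ u ∈ A, u ∉ micVis K c →
        (Pool.Agent.Helper1.KU.micStep K b c').edges u =
          (Pool.Agent.Helper1.KU.micStep K b c).edges u := by
      intro u hu hu'
      rw [micStep_outside K b c hu', micStep_outside K b c' (by rw [h.micVis_eq hA]; exact hu'),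
        h.edges u hu]
    unfold Pool.Agent.Helper1.KU.micStep at hout ⊢
    rw [if_neg hb, if_neg (by rw [h.bit]; exact hb)] at hout ⊢
    rw [h1, h.state] at hout ⊢
    cases ha : K.act c.state (view K.r c.edges c.head) with
    | rewrite k ops head next =>
      rw [ha] at hout
      simp only at hout ⊢
      have hval : Ref.val (r := K.r) c'.edges c'.head c'.size k =
          Ref.val c.edges c.head c.size k := by
        funext u
        cases u with
        | old w => exact h2 w.1 w.2
        | new i =>
          unfold Ref.val
          rw [h.size]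
      refine ⟨rfl, ?_, ?_, h.pos, h.bit, ?_⟩
      · simp only
        rw [hval, h.head]
      · simp only
        rw [h.size]
      · intro u hu
        by_cases hu' : u ∈ micVis K c
        · simp only
          rw [hval]
          refine foldl_congr (A := micVis K c) ?_ ops ?_ u hu'
          · intro v p hv
            have := val_mem c.edges c.head c.size k v p hv
            unfold micVis
            rw [if_neg hb, ha]
            exact union_subset_union (ball_mono _ (Nat.le_succ _) _) (Subset.refl _) this
          · intro v hv
            unfold addVertices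
            rw [h.size, h.edges v (hA hv)]
        · exact hout u hu hu'
    | read next =>
      simp only
      refine ⟨?_, h.head, h.size, ?_, h.bit, h.edges⟩
      · simp only [h.pos]
      · simp only [h.pos]
    | write o next => exact ⟨rfl, h.head, h.size, h.pos, rfl, h.edges⟩

theorem Sim.iterate {K : KUM} {A : Finset ℕ} {c c' : Mic K.D K.n} (h : Sim A c c')
    (b : ℕ → Bool) (F : ℕ) (hA : ∀ i < F, micVis K ((Pool.Agent.Helper1.KU.micStep K b)^[i] c) ⊆ A) :
    Sim A ((Pool.Agent.Helper1.KU.micStep K b)^[F] c)
      ((Pool.Agent.Helper1.KU.micStep K b)^[F] c') := by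
  induction F with
  | zero => exact h
  | succ F ih =>
    rw [Function.iterate_succ_apply', Function.iterate_succ_apply']
    exact (ih fun i hi => hA i (Nat.lt_succ_of_lt hi)).micStep (hA F (Nat.lt_succ_self F)) b

theorem Sim.reset {n : ℕ} {A : Finset ℕ} {c c' : Mic D n} (h : Sim A c c') :
    Sim A c.reset c'.reset :=
  ⟨h.state, h.head, h.size, rfl, rfl, h.edges⟩

theorem Sim.cmdRun {K : KUM} {A : Finset ℕ} {c c' : Mic K.D K.n} (h : Sim A c c') (F : ℕ)
    (g : Cmd) (hA : cmdVis K F g c ⊆ A) :
    Sim A (cmdRun K F g c) (cmdRun K F g c') ∧ cmdVis K F g c' = cmdVis K F g c := by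
  have hA' : ∀ i < F, micVis K ((Pool.Agent.Helper1.KU.micStep K g.bits)^[i] c.reset) ⊆ A := by
    intro i hi
    refine Subset.trans ?_ hA
    unfold cmdVis
    exact subset_biUnion_of_mem (fun i => micVis K
      ((Pool.Agent.Helper1.KU.micStep K g.bits)^[i] c.reset)) (mem_range.2 hi)
  refine ⟨h.reset.iterate g.bits F hA', ?_⟩
  unfold cmdVis
  apply biUnion_congr rfl
  intro i hi
  rw [mem_range] at hi
  exact (h.reset.iterate g.bits i fun j hj => hA' j (hj.trans hi)).micVis_eq (hA' i hi)

theorem Sim.wordRun {K : KUM} {A : Finset ℕ} {c c' : Mic K.D K.n} (h : Sim A c c') (F : ℕ)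
    (w : List Cmd) (hA : wordVis K F w c ⊆ A) :
    Sim A (wordRun K F w c) (wordRun K F w c') ∧ wordVis K F w c' = wordVis K F w c := by
  induction w generalizing c c' with
  | nil => exact ⟨h, rfl⟩
  | cons g w ih =>
    simp only [wordVis] at hA
    obtain ⟨h1, h2⟩ := h.cmdRun F g (subset_union_left.trans hA)
    obtain ⟨h3, h4⟩ := ih h1 (subset_union_right.trans hA)
    refine ⟨h3, ?_⟩
    simp only [wordVis]
    rw [h2, h4]

/-- The run depends on the storage only through the visited vertices. -/
theorem wordRun_congr (K : KUM) (F : ℕ) (w : List Cmd) (c : Mic K.D K.n) (E' : Edges K.D)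
    (h : ∀ u ∈ wordVis K F w c, E' u = c.edges u) :
    wordVis K F w { c with edges := E' } = wordVis K F w c ∧
    (wordRun K F w { c with edges := E' }).state = (wordRun K F w c).state ∧
    (wordRun K F w { c with edges := E' }).head = (wordRun K F w c).head ∧
    (wordRun K F w { c with edges := E' }).size = (wordRun K F w c).size ∧
    (wordRun K F w { c with edges := E' }).bit = (wordRun K F w c).bit ∧
    ∀ u ∈ wordVis K F w c, (wordRun K F w { c with edges := E' }).edges u =
      (wordRun K F w c).edges u := by
  have hs : Sim (wordVis K F w c) c { c with edges := E' } := ⟨rfl, rfl, rfl, rfl, rfl, h⟩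
  obtain ⟨h1, h2⟩ := hs.wordRun F w (Subset.refl _)
  exact ⟨h2, h1.state, h1.head, h1.size, h1.bit, h1.edges⟩

/-! ## Unvisited vertices -/

theorem iterate_outside (K : KUM) (b : ℕ → Bool) (F : ℕ) (c : Mic K.D K.n) {u : ℕ}
    (hu : ∀ i < F, u ∉ micVis K ((micStep K b)^[i] c)) :
    ((micStep K b)^[F] c).edges u = c.edges u := by
  induction F with
  | zero => rfl
  | succ F ih =>
    rw [Function.iterate_succ_apply', micStep_outside K b _ (hu F (Nat.lt_succ_self F))]
    exact ih fun i hi => hu i (Nat.lt_succ_of_lt hi)

theorem cmdRun_outside (K : KUM) (F : ℕ) (g : Cmd) (c : Mic K.D K.n) {u : ℕ}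
    (hu : u ∉ cmdVis K F g c) : (cmdRun K F g c).edges u = c.edges u := by
  unfold cmdRun
  rw [iterate_outside K g.bits F c.reset]
  · rfl
  · intro i hi h
    apply hu
    unfold cmdVis
    rw [mem_biUnion]
    exact ⟨i, mem_range.2 hi, h⟩

/-- Vertices that are not visited are not changed. -/
theorem wordRun_edges_of_notMem (K : KUM) (F : ℕ) (w : List Cmd) (c : Mic K.D K.n) {u : ℕ}
    (hu : u ∉ wordVis K F w c) : (wordRun K F w c).edges u = c.edges u := by
  induction w generalizing c with
  | nil => rfl
  | cons g w ih =>
    simp only [wordVis, mem_union, not_or] at hu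
    simp only [wordRun]
    rw [ih _ hu.2, cmdRun_outside K F g c hu.1]

/-! ## Well-formed configurations -/

/-- well-formed storage with `s` vertices -/
structure WFE (E : Edges D) (s : ℕ) : Prop where
  free : ∀ u a, s ≤ u → E u a = none
  lt : ∀ u a v b, E u a = some (v, b) → v < s
  symm : ∀ u a v b, E u a = some (v, b) → E v b = some (u, a)

theorem _root_.Pool.Agent.Helper1.KU.WF.wfe {n : ℕ} {c : Mic D n} (h : WF c) : WFE c.edges c.size :=
  ⟨h.free, h.lt, h.symm⟩

theorem WFE.addVertices {E : Edges D} {s : ℕ} (h : WFE E s) (k : ℕ) :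
    WFE (addVertices E s k) (s + k) := by
  have h1 : ∀ u, Pool.Agent.Helper1.KU.addVertices E s k u = E u := by
    intro u
    unfold Pool.Agent.Helper1.KU.addVertices
    split_ifs with h'
    · funext a
      rw [h.free u a h'.1]
    · rfl
  have h2 : Pool.Agent.Helper1.KU.addVertices E s k = E := funext h1
  rw [h2]
  refine ⟨fun u a hu => h.free u a (by omega), fun u a v b huv => ?_, h.symm⟩
  have := h.lt u a v b huv
  omega

theorem WFE.lt_of_ne_none {E : Edges D} {s : ℕ} (h : WFE E s) {u : ℕ} {a : Fin D}
    (hu : E u a ≠ none) : u < s := by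
  by_contra h'
  exact hu (h.free u a (by omega))

theorem WFE.endOf_lt {E : Edges D} {s : ℕ} (h : WFE E s) (w : List (Fin D)) {u v : ℕ} (hu : u < s)
    (hw : endOf E u w = some v) : v < s := by
  induction w generalizing u with
  | nil =>
    simp only [endOf, Option.some.injEq] at hw
    omega
  | cons a w ih =>
    simp only [endOf] at hw
    cases h' : E u a with
    | none => rw [h'] at hw; simp at hw
    | some p =>
      rw [h'] at hw
      exact ih (h.lt u a p.1 p.2 h') hw

/-- going back: if the end of a path is an old vertex, so is the start -/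
theorem WFE.lt_of_endOf {E : Edges D} {s : ℕ} (h : WFE E s) (w : List (Fin D)) {u v : ℕ} (hv : v < s)
    (hw : endOf E u w = some v) : u < s := by
  cases w with
  | nil =>
    simp only [endOf, Option.some.injEq] at hw
    omega
  | cons a w =>
    simp only [endOf] at hw
    apply h.lt_of_ne_none (a := a)
    intro h'
    rw [h'] at hw
    simp at hw

theorem WFE.apply {r : ℕ} {val : Ref D r → Option ℕ} {E : Edges D} {s : ℕ} (h : WFE E s)
    (hval : ∀ u p, val u = some p → p < s) (op : Op D r) : WFE (Op.apply val E op) s := by
  cases op with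
  | join u a v b =>
    rcases apply_join val E u v a b with h' | ⟨p, q, hu, hv, hp, hq, h'⟩
    · rw [h']; exact h
    · rw [h']
      have hps := hval u p hu
      have hqs := hval v q hv
      refine ⟨fun x a' hx => ?_, fun x a' y b' hxy => ?_, fun x a' y b' hxy => ?_⟩
      · rw [setPlace_of_ne _ (by omega), setPlace_of_ne _ (by omega)]
        exact h.free x a' hx
      · rw [setPlace_apply, setPlace_apply] at hxy
        split_ifs at hxy
        · simp only [Option.some.injEq, Prod.mk.injEq] at hxy
          omega
        · simp only [Option.some.injEq, Prod.mk.injEq] at hxy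
          omega
        · exact h.lt x a' y b' hxy
      · rw [setPlace_apply, setPlace_apply] at hxy ⊢
        split_ifs at hxy with h1 h2
        · simp only [Option.some.injEq, Prod.mk.injEq] at hxy
          obtain ⟨rfl, rfl⟩ := h1
          obtain ⟨rfl, rfl⟩ := hxy
          by_cases h3 : p = x ∧ a = a'
          · rw [if_pos h3, h3.1, h3.2]
          · rw [if_neg h3, if_pos ⟨rfl, rfl⟩]
        · simp only [Option.some.injEq, Prod.mk.injEq] at hxy
          obtain ⟨rfl, rfl⟩ := h2
          obtain ⟨rfl, rfl⟩ := hxy
          rw [if_pos ⟨rfl, rfl⟩]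
        · have h3 := h.symm x a' y b' hxy
          rw [if_neg, if_neg, h3]
          · rintro ⟨rfl, rfl⟩
            rw [h3] at hp
            simp at hp
          · rintro ⟨rfl, rfl⟩
            rw [h3] at hq
            simp at hq
  | cut u a =>
    rcases apply_cut val E u a with h' | ⟨p, q, b, hu, hp, h'⟩
    · rw [h']; exact h
    · rw [h']
      have hps := hval u p hu
      have hqs := h.lt p a q b hp
      refine ⟨fun x a' hx => ?_, fun x a' y b' hxy => ?_, fun x a' y b' hxy => ?_⟩
      · rw [setPlace_of_ne _ (by omega), setPlace_of_ne _ (by omega)]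
        exact h.free x a' hx
      · rw [setPlace_apply, setPlace_apply] at hxy
        split_ifs at hxy
        exact h.lt x a' y b' hxy
      · rw [setPlace_apply, setPlace_apply] at hxy ⊢
        split_ifs at hxy with h1 h2
        have h3 := h.symm x a' y b' hxy
        rw [if_neg, if_neg, h3]
        · rintro ⟨rfl, rfl⟩
          rw [h3] at hp
          simp only [Option.some.injEq, Prod.mk.injEq] at hp
          exact h1 hp
        · rintro ⟨rfl, rfl⟩
          have h4 := h.symm p a y b' hp
          rw [h3] at h4
          simp only [Option.some.injEq, Prod.mk.injEq] at h4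
          exact h2 h4

theorem WFE.foldl {r : ℕ} {val : Ref D r → Option ℕ} {E : Edges D} {s : ℕ} (h : WFE E s)
    (hval : ∀ u p, val u = some p → p < s) (ops : List (Op D r)) :
    WFE (ops.foldl (Op.apply val) E) s := by
  induction ops generalizing E with
  | nil => exact h
  | cons op ops ih => exact ih (h.apply hval op)

theorem wf_init (K : KUM) : WF (micInit K) :=
  ⟨by simp [micInit], fun _ _ _ => rfl, fun _ _ _ _ h => by simp [micInit] at h,
    fun _ _ _ _ h => by simp [micInit] at h⟩

theorem wf_micStep {K : KUM} {c : Mic K.D K.n} (h : WF c) (b : ℕ → Bool) :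
    WF (micStep K b c) := by
  unfold micStep
  split_ifs with hb
  · exact h
  · cases ha : K.act c.state (view K.r c.edges c.head) with
    | rewrite k ops head next =>
      simp only
      have hval : ∀ (u : Ref K.D K.r) (p : ℕ), Ref.val c.edges c.head c.size k u = some p →
          p < c.size + k := by
        intro u p hp
        cases u with
        | old w =>
          have := h.wfe.endOf_lt w.1 h.head_lt hp
          omega
        | new i =>
          simp only [Ref.val] at hp
          split_ifs at hp
          simp only [Option.some.injEq] at hp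
          omega
      have hE := (h.wfe.addVertices k).foldl hval ops
      refine ⟨?_, hE.free, hE.lt, hE.symm⟩
      simp only
      cases hh : Ref.val c.edges c.head c.size k head with
      | none =>
        have := h.head_lt
        simp only [Option.getD_none]
        omega
      | some p => exact hval head p hh
    | read next => exact ⟨h.head_lt, h.free, h.lt, h.symm⟩
    | write o next => exact ⟨h.head_lt, h.free, h.lt, h.symm⟩

theorem wf_iterate {K : KUM} {c : Mic K.D K.n} (h : WF c) (b : ℕ → Bool) (F : ℕ) :
    WF ((micStep K b)^[F] c) := by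
  induction F with
  | zero => exact h
  | succ F ih =>
    rw [Function.iterate_succ_apply']
    exact wf_micStep ih b

theorem wf_reset {n : ℕ} {c : Mic D n} (h : WF c) : WF c.reset :=
  ⟨h.head_lt, h.free, h.lt, h.symm⟩

theorem wf_wordRun {K : KUM} {F : ℕ} {w : List Cmd} {c : Mic K.D K.n} (h : WF c) :
    WF (wordRun K F w c) := by
  induction w generalizing c with
  | nil => exact h
  | cons g w ih => exact ih (wf_iterate (wf_reset h) g.bits F)

theorem lt_of_mem_micVis {K : KUM} {c : Mic K.D K.n} (h : WF c) (b : ℕ → Bool)
    {u : ℕ} (hu : u ∈ micVis K c) : u < (micStep K b c).size := by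
  unfold micVis at hu
  unfold micStep
  split_ifs at hu ⊢ with hb
  · simp at hu
  · rw [mem_union, mem_Ico] at hu
    have h1 : u ∈ ball c.edges (K.r + 1) c.head → u < c.size := by
      intro h'
      rw [mem_ball_iff] at h'
      obtain ⟨w, _, hw⟩ := h'
      exact h.wfe.endOf_lt w h.head_lt hw
    cases ha : K.act c.state (view K.r c.edges c.head) with
    | rewrite k ops head next =>
      rw [ha] at hu
      simp only [KAct.created] at hu ⊢
      rcases hu with hu | hu
      · have := h1 hu
        omega
      · omega
    | read next =>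
      rw [ha] at hu
      simp only [KAct.created] at hu ⊢
      rcases hu with hu | hu
      · exact h1 hu
      · omega
    | write o next =>
      rw [ha] at hu
      simp only [KAct.created] at hu ⊢
      rcases hu with hu | hu
      · exact h1 hu
      · omega

theorem lt_of_mem_cmdVis {K : KUM} {F : ℕ} {g : Cmd} {c : Mic K.D K.n} (h : WF c)
    {u : ℕ} (hu : u ∈ cmdVis K F g c) : u < (cmdRun K F g c).size := by
  unfold cmdVis at hu
  rw [mem_biUnion] at hu
  obtain ⟨i, hi, hu⟩ := hu
  rw [mem_range] at hi
  have h1 := lt_of_mem_micVis (wf_iterate (wf_reset h) g.bits i) g.bits hu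
  rw [← Function.iterate_succ_apply' (micStep K g.bits)] at h1
  refine h1.trans_le ?_
  unfold cmdRun
  obtain ⟨j, rfl⟩ : ∃ j, F = j + i.succ := ⟨F - i.succ, by omega⟩
  rw [Function.iterate_add_apply]
  exact size_le_iterate K g.bits j _

theorem lt_of_mem_wordVis {K : KUM} {F : ℕ} {w : List Cmd} {c : Mic K.D K.n} (h : WF c)
    {u : ℕ} (hu : u ∈ wordVis K F w c) : u < (wordRun K F w c).size := by
  induction w generalizing c with
  | nil => simp [wordVis] at hu
  | cons g w ih =>
    simp only [wordVis, mem_union] at hu
    simp only [wordRun]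
    rcases hu with hu | hu
    · exact (lt_of_mem_cmdVis h hu).trans_le (size_le_wordRun K F w _)
    · exact ih (wf_iterate (wf_reset h) g.bits F) hu

/-! ## Newly visited vertices -/

theorem head_mem_micVis {K : KUM} {c : Mic K.D K.n} (hb : ¬ c.bit.isSome) :
    c.head ∈ micVis K c := by
  unfold micVis
  rw [if_neg hb]
  exact mem_union_left _ (mem_ball_self _ _ _)

theorem head_micStep {K : KUM} {c : Mic K.D K.n} (b : ℕ → Bool) :
    (micStep K b c).head = c.head ∨ (micStep K b c).head ∈ micVis K c := by
  unfold micStep
  split_ifs with hb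
  · exact Or.inl rfl
  · cases ha : K.act c.state (view K.r c.edges c.head) with
    | rewrite k ops head next =>
      simp only
      cases hh : Ref.val c.edges c.head c.size k head with
      | none => exact Or.inl rfl
      | some p =>
        right
        have := val_mem c.edges c.head c.size k head p hh
        unfold micVis
        rw [if_neg hb, ha]
        exact union_subset_union (ball_mono _ (Nat.le_succ _) _) (Subset.refl _) this
    | read next => exact Or.inl rfl
    | write o next => exact Or.inl rfl

theorem head_iterate {K : KUM} {c : Mic K.D K.n} (hb : ¬ c.bit.isSome) (b : ℕ → Bool) (F : ℕ)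
    (hF : F ≠ 0) : ((micStep K b)^[F] c).head ∈
      (Finset.range F).biUnion fun i => micVis K ((micStep K b)^[i] c) := by
  induction F with
  | zero => exact absurd rfl hF
  | succ F ih =>
    rw [Function.iterate_succ_apply', mem_biUnion]
    rcases head_micStep (c := (micStep K b)^[F] c) b with h | h
    · rw [h]
      by_cases hF' : F = 0
      · subst hF'
        exact ⟨0, by simp, head_mem_micVis hb⟩
      · have := ih hF'
        rw [mem_biUnion] at this
        obtain ⟨i, hi, hi'⟩ := this
        rw [mem_range] at hi
        exact ⟨i, mem_range.2 (by omega), hi'⟩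
    · exact ⟨F, mem_range.2 (Nat.lt_succ_self F), h⟩

theorem head_cmdRun {K : KUM} {F : ℕ} (hF : F ≠ 0) (g : Cmd) (c : Mic K.D K.n) :
    (cmdRun K F g c).head ∈ cmdVis K F g c :=
  head_iterate (by simp [Mic.reset]) g.bits F hF

theorem head_wordRun {K : KUM} {F : ℕ} (hF : F ≠ 0) (w : List Cmd) (hw : w ≠ [])
    (c : Mic K.D K.n) : (wordRun K F w c).head ∈ wordVis K F w c := by
  induction w generalizing c with
  | nil => exact absurd rfl hw
  | cons g w ih =>
    simp only [wordRun, wordVis, mem_union]
    by_cases hw' : w = []
    · subst hw'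
      left
      exact head_cmdRun hF g c
    · right
      exact ih hw' _

/-- A path in the current storage `E` that leaves the set `W` ends with a path in the old storage
`E0` which starts in `W`. -/
theorem exists_old_path {E E0 : Edges D} {s : ℕ} {W : Finset ℕ}
    (hE : ∀ u a v b, E u a = some (v, b) → E v b = some (u, a)) (h0 : WFE E0 s)
    (hW : ∀ u ∉ W, E u = E0 u) {x : ℕ} (hx : x < s) (p : List (Fin D)) (h : ℕ)
    (hp : endOf E h p = some x) :
    (∃ z ∈ W, z < s ∧ x ∈ ball E0 p.length z) ∨ endOf E0 h p = some x := by
  induction p generalizing h with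
  | nil => right; exact hp
  | cons a p ih =>
    simp only [endOf] at hp
    cases h' : E h a with
    | none => rw [h'] at hp; simp at hp
    | some y =>
      obtain ⟨h1, b⟩ := y
      rw [h'] at hp
      rcases ih h1 hp with ⟨z, hz, hzs, hz'⟩ | h2
      · exact Or.inl ⟨z, hz, hzs, ball_mono _ (by simp) _ hz'⟩
      · by_cases hh : h1 ∈ W
        · left
          refine ⟨h1, hh, h0.lt_of_endOf p hx h2, ball_mono _ (Nat.le_succ _) _ ?_⟩
          rw [mem_ball_iff]
          exact ⟨p, le_rfl, h2⟩
        · right
          have h3 := hE h a h1 b h'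
          rw [hW h1 hh] at h3
          have h4 := h0.symm h1 b h a h3
          simp only [endOf, h4]
          exact h2

/-- The invariant for `exists_near`. -/
structure Near {n : ℕ} (r : ℕ) (c : Mic D n) (W0 : Finset ℕ) (cur : Mic D n) (W : Finset ℕ)
    (i : ℕ) : Prop where
  wf : WF cur
  head : cur.head ∈ W
  out : ∀ u ∉ W, cur.edges u = c.edges u
  size : c.size ≤ cur.size
  near : ∀ x ∈ W, x < c.size → ∃ u ∈ W0, u < c.size ∧ x ∈ ball c.edges ((r + 1) * i) u

theorem Near.micStep {K : KUM} {c cur : Mic K.D K.n} {W0 W : Finset ℕ} {i : ℕ} (hc : WF c)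
    (h : Near K.r c W0 cur W i) (b : ℕ → Bool) :
    Near K.r c W0 (micStep K b cur) (W ∪ micVis K cur) (i + 1) := by
  refine ⟨wf_micStep h.wf b, ?_, ?_, h.size.trans (size_micStep K b cur).1, ?_⟩
  · rw [mem_union]
    rcases head_micStep (c := cur) b with h' | h'
    · rw [h']
      exact Or.inl h.head
    · exact Or.inr h'
  · intro u hu
    rw [mem_union, not_or] at hu
    rw [micStep_outside K b cur hu.2, h.out u hu.1]
  · intro x hx hxs
    by_cases hxW : x ∈ W
    · obtain ⟨u, hu, hus, hu'⟩ := h.near x hxW hxs
      exact ⟨u, hu, hus, ball_mono _ (Nat.mul_le_mul_left _ (Nat.le_succ i)) _ hu'⟩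
    · rw [mem_union] at hx
      have hx := hx.resolve_left hxW
      unfold micVis at hx
      split_ifs at hx with hb
      · simp at hx
      · rw [mem_union, mem_Ico] at hx
        have hx : x ∈ ball cur.edges (K.r + 1) cur.head := by
          rcases hx with hx | hx
          · exact hx
          · have := h.size
            omega
        rw [mem_ball_iff] at hx
        obtain ⟨p, hp, hp'⟩ := hx
        have key : ∃ z ∈ W, z < c.size ∧ x ∈ ball c.edges (K.r + 1) z := by
          rcases exists_old_path h.wf.symm hc.wfe h.out hxs p cur.head hp' with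
            ⟨z, hz, hzs, hz'⟩ | h2
          · exact ⟨z, hz, hzs, ball_mono _ hp _ hz'⟩
          · refine ⟨cur.head, h.head, hc.wfe.lt_of_endOf p hxs h2, ?_⟩
            rw [mem_ball_iff]
            exact ⟨p, hp, h2⟩
        obtain ⟨z, hz, hzs, hz'⟩ := key
        obtain ⟨u, hu, hus, hu'⟩ := h.near z hz hzs
        refine ⟨u, hu, hus, ?_⟩
        have := ball_trans c.edges hu' hz'
        rwa [← Nat.mul_succ] at this

theorem Near.iterate {K : KUM} {c cur : Mic K.D K.n} {W0 W : Finset ℕ} {i : ℕ} (hc : WF c)
    (h : Near K.r c W0 cur W i) (b : ℕ → Bool) (F : ℕ) :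
    Near K.r c W0 ((Pool.Agent.Helper1.KU.micStep K b)^[F] cur)
      (W ∪ (Finset.range F).biUnion fun j =>
        micVis K ((Pool.Agent.Helper1.KU.micStep K b)^[j] cur)) (i + F) := by
  induction F with
  | zero => simpa using h
  | succ F ih =>
    have := ih.micStep hc b
    rw [Function.iterate_succ_apply', range_add_one, biUnion_insert, union_comm
      (micVis K ((Pool.Agent.Helper1.KU.micStep K b)^[F] cur)), ← union_assoc]
    exact this

theorem Near.cmdRun {K : KUM} {c cur : Mic K.D K.n} {W0 W : Finset ℕ} {i : ℕ} (hc : WF c)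
    (h : Near K.r c W0 cur W i) (F : ℕ) (g : Cmd) :
    Near K.r c W0 (cmdRun K F g cur) (W ∪ cmdVis K F g cur) (i + F) := by
  have h' : Near K.r c W0 cur.reset W i := ⟨wf_reset h.wf, h.head, h.out, h.size, h.near⟩
  exact h'.iterate hc g.bits F

theorem Near.wordRun {K : KUM} {c cur : Mic K.D K.n} {W0 W : Finset ℕ} {i : ℕ} (hc : WF c)
    (h : Near K.r c W0 cur W i) (F : ℕ) (w : List Cmd) :
    Near K.r c W0 (wordRun K F w cur) (W ∪ wordVis K F w cur) (i + F * w.length) := by
  induction w generalizing cur W i with
  | nil => simpa [Pool.Agent.Helper1.KU.wordRun, wordVis] using h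
  | cons g w ih =>
    have := ih (h.cmdRun hc F g)
    simp only [Pool.Agent.Helper1.KU.wordRun, wordVis, List.length_cons]
    rw [← union_assoc]
    have h2 : i + F * (w.length + 1) = i + F + F * w.length := by ring
    rw [h2]
    exact this

/-- Newly visited old vertices are near previously visited ones, in the old storage. -/
theorem exists_near (K : KUM) (F : ℕ) (w w' : List Cmd) (c : Mic K.D K.n) (h : WF c)
    (hF : F ≠ 0) (hw : w ≠ []) {y : ℕ} (hy : y ∈ wordVis K F (w ++ w') c)
    (_hy' : y ∉ wordVis K F w c) (hlt : y < c.size) :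
    ∃ u ∈ wordVis K F w c, u < c.size ∧
      y ∈ ball c.edges ((K.r + 1) * F * w'.length) u := by
  have h0 : Near K.r c (wordVis K F w c) (wordRun K F w c) (wordVis K F w c) 0 :=
    ⟨wf_wordRun h, head_wordRun hF w hw c, fun u hu => wordRun_edges_of_notMem K F w c hu,
      size_le_wordRun K F w c, fun x hx hxs => ⟨x, hx, hxs, mem_ball_self _ _ _⟩⟩
  have h1 := h0.wordRun h F w'
  rw [wordVis_append] at hy
  obtain ⟨u, hu, hus, hu'⟩ := h1.near y hy hlt
  refine ⟨u, hu, hus, ?_⟩
  rwa [zero_add, ← mul_assoc] at hu'

end Pool.Agent.Helper17.KU
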